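import Pool.Agent.W492.KC.Defs

/-!
# Definition: splitting of the morphisms of Chow motives which are injective on cohomology
-/

set_option linter.unusedSectionVars false

open CategoryTheory Limits MonoidalCategory Triangulated Pretriangulated

namespace Pool.Agent.W492.SP

universe v u v' u'

variable {T : Type u} [Category.{v} T] [HasShift T ℤ] [Preadditive T]
  {𝒜 : Type u'} [Category.{v'} 𝒜] [Abelian 𝒜] (H : T ⥤ 𝒜) (𝒞 : ObjectProperty T)

/-- Every morphism of Chow motives which is injective on cohomology has a left inverse. -/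
def Splitting : Prop :=
  ∀ X Y, 𝒞 X → 𝒞 Y → ∀ f : X ⟶ Y, (∀ n : ℤ, Mono (H.map (f⟦n⟧'))) → ∃ r : Y ⟶ X, f ≫ r = 𝟙 X

end Pool.Agent.W492.SP
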