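import Pool.Agent.W492.SP.Defs
import Pool.Agent.W492.VN.Final
import Pool.Agent.W492.KC.Kim

/-!
# Splitting is equivalent to hom = num and conservativity
-/

set_option linter.unusedSectionVars false
set_option linter.style.haveILetI false

open CategoryTheory Limits MonoidalCategory Triangulated Pretriangulated ZeroObject

namespace Pool.Agent.W492.SP

open Pool.Agent.W492.TS Pool.Agent.W492.PC

open Pool.Agent.W492.KC

universe v u v' u'

variable {T : Type u} [Category.{v} T] [HasZeroObject T] [HasShift T ℤ] [Preadditive T]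
  [∀ n : ℤ, (shiftFunctor T n).Additive] [Pretriangulated T] [IsTriangulated T]
  [MonoidalCategory T] [SymmetricCategory T] [RightRigidCategory T] [MonoidalPreadditive T]
  {𝒜 : Type u'} [Category.{v'} 𝒜] [Abelian 𝒜] {H : T ⥤ 𝒜} [H.IsHomological]
  {W : ℤ → ObjectProperty 𝒜} {𝒞 : ObjectProperty T}
  {F : Type} [Field F] [CharZero F] [Linear F T] [MonoidalLinear F T]

theorem splitting_of (hS : Setup H W 𝒞 F) (hD : HomEqNum H 𝒞) (hQ : Quasi H 𝒞) :
    Splitting H 𝒞 := by
  intro X Y hX hY f hf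
  obtain ⟨h, hh⟩ := hS.exists_quasi' hD hX hY f
  have h1 : HomTriv H (𝟙 X - f ≫ h) := by
    intro n
    haveI := hf n
    rw [← cancel_mono (H.map (f⟦n⟧')), zero_comp, ← Functor.map_comp, ← Functor.map_comp,
      Preadditive.sub_comp, Category.id_comp, Category.assoc]
    have h2 := hh.neg n
    rwa [neg_sub] at h2
  have h2 : IsIso (f ≫ h) := by
    have := hQ X hX _ h1
    rwa [sub_sub_cancel] at this
  exact ⟨h ≫ inv (f ≫ h), by rw [← Category.assoc, IsIso.hom_inv_id]⟩

theorem homEqNum_of_splitting (hS : Setup H W 𝒞 F) (hsp : Splitting H 𝒞) : HomEqNum H 𝒞 := by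
  intro X hX g hg
  have h1 : ¬ HomTriv H (VN.trp g) := by
    intro h1
    apply hg
    rw [← VN.trp_inv g]
    exact ((hS.homTriv_whiskerRight h1 X).comp_left _).comp_right _
  obtain ⟨r, hr⟩ := hsp _ _ hS.one_mem (hS.dual_mem X hX) (VN.trp g) (by
    intro n
    by_cases hn : n = 0
    · subst hn
      have h2 : H.map ((VN.trp g)⟦(0 : ℤ)⟧') ≠ 0 := by
        intro h2
        apply h1
        intro m
        by_cases hm : m = 0
        · subst hm
          exact h2
        · exact (hS.unit_deg m hm).eq_of_src _ _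
      haveI := hS.unit_simple
      haveI : Simple (H.obj ((𝟙_ T)⟦(0 : ℤ)⟧)) := by
        have e : H.obj ((𝟙_ T)⟦(0 : ℤ)⟧) ≅ H.obj (𝟙_ T) :=
          H.mapIso ((shiftFunctorZero T ℤ).app (𝟙_ T))
        exact Simple.of_iso e
      exact mono_of_nonzero_from_simple h2
    · exact (hS.unit_deg n hn).mono _)
  refine ⟨η_ X Xᘁ ≫ (X ◁ r) ≫ (ρ_ X).hom, ?_⟩
  rw [VN.trp_comp, hr]
  intro h0
  apply hS.unit_not_triv
  rw [h0]
  exact HomTriv.zero _ _

theorem quasi_of_splitting (hsp : Splitting H 𝒞) : Quasi H 𝒞 := by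
  intro X hX f hf
  have key : ∀ e : X ⟶ X, (∀ n : ℤ, H.map (e⟦n⟧') = 𝟙 _) → ∃ r : X ⟶ X, e ≫ r = 𝟙 X := by
    intro e he
    exact hsp X X hX hX e (fun n => by rw [he n]; infer_instance)
  have h1 : ∀ n : ℤ, H.map ((𝟙 X - f)⟦n⟧') = 𝟙 _ := by
    intro n
    rw [Functor.map_sub, Functor.map_sub, hf n, sub_zero, CategoryTheory.Functor.map_id,
      CategoryTheory.Functor.map_id]
  obtain ⟨r, hr⟩ := key _ h1
  have h2 : ∀ n : ℤ, H.map (r⟦n⟧') = 𝟙 _ := by
    intro n
    have h3 := congrArg (fun z : X ⟶ X => H.map (z⟦n⟧')) hr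
    simp only [Functor.map_comp] at h3
    rw [h1 n, Category.id_comp, CategoryTheory.Functor.map_id, CategoryTheory.Functor.map_id] at h3
    exact h3
  obtain ⟨r', hr'⟩ := key _ h2
  have h4 : (𝟙 X - f) = r' := by
    calc 𝟙 X - f = (𝟙 X - f) ≫ (r ≫ r') := by rw [hr', Category.comp_id]
      _ = ((𝟙 X - f) ≫ r) ≫ r' := (Category.assoc _ _ _).symm
      _ = r' := by rw [hr, Category.id_comp]
  exact ⟨r, hr, by rw [h4]; exact hr'⟩

theorem splitting_tfae (hS : Setup H W 𝒞 F) :
    List.TFAE [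
      Splitting H 𝒞,
      Conservative H ∧ HomEqNum H 𝒞,
      Quasi H 𝒞 ∧ HomEqNum H 𝒞] := by
  tfae_have 1 → 3 := fun h => ⟨quasi_of_splitting h, homEqNum_of_splitting hS h⟩
  tfae_have 3 → 2 := fun h => ⟨hS.conservative h.2 h.1, h.2⟩
  tfae_have 2 → 1 := fun h => splitting_of hS h.2
    (quasi_of_chowConservative (fun X Y _ _ f hf => isIso_of_conservative h.1 hf))
  tfae_finish

end Pool.Agent.W492.SP
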